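import Pool.Agent.Run7.h901.PO.Iface

/-!
# Piece SK of project PO (helper901)
-/

set_option autoImplicit false

namespace Run7.h901.PO.SK

open Run7.h901.PO

section
variable {S : Type} (Γ : Subgroup (Equiv.Perm S)) (lt : S → S → Prop)

/-- same orbit -/
def E (s t : S) : Prop := ∃ γ ∈ Γ, γ s = t

/-- good partial maps -/
def Gd (p : Finset (S × S)) : Prop :=
  (∀ q ∈ p, E Γ q.1 q.2) ∧ ∀ q ∈ p, ∀ r ∈ p, ∀ R : S → S → Prop, MInv Γ lt R →
    (R q.1 r.1 ↔ R q.2 r.2)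

variable {Γ lt}

lemma E_refl (s : S) : E Γ s s := ⟨1, Γ.one_mem, rfl⟩

lemma E_symm {s t : S} (h : E Γ s t) : E Γ t s := by
  obtain ⟨γ, hγ, rfl⟩ := h
  exact ⟨γ⁻¹, Γ.inv_mem hγ, by simp⟩

lemma E_trans {s t u : S} (h : E Γ s t) (h' : E Γ t u) : E Γ s u := by
  obtain ⟨γ, hγ, rfl⟩ := h
  obtain ⟨γ', hγ', rfl⟩ := h'
  exact ⟨γ' * γ, Γ.mul_mem hγ' hγ, rfl⟩

lemma minv_iff {R : S → S → Prop} (hR : MInv Γ lt R) {γ : Equiv.Perm S} (hγ : γ ∈ Γ) (s t : S) :
    R s t ↔ R (γ s) (γ t) :=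
  ⟨hR.1 γ hγ s t, fun h => by
    have := hR.1 γ⁻¹ (Γ.inv_mem hγ) _ _ h
    simpa using this⟩

lemma minv_dual {R : S → S → Prop} (hR : MInv Γ lt R) : MInv Γ lt (fun s u => ¬ R u s) := by
  refine ⟨fun γ hγ s t h h' => h ((minv_iff hR hγ t s).2 h'), ?_⟩
  intro s s' t t' hs ht h h'
  exact h (hR.2 t' t s' s ht hs h')

lemma minv_true : MInv Γ lt (fun _ _ => True) := ⟨fun _ _ _ _ _ => trivial, fun _ _ _ _ _ _ _ => trivial⟩

lemma exists_min {ι : Type*} (J : Finset ι) (hJ : J.Nonempty) (r : ι → ι → Prop)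
    (tot : ∀ i ∈ J, ∀ j ∈ J, r i j ∨ r j i) (tr : ∀ i j k, r i j → r j k → r i k) :
    ∃ i ∈ J, ∀ j ∈ J, r i j := by
  classical
  induction hJ using Finset.Nonempty.cons_induction with
  | singleton a =>
    refine ⟨a, by simp, fun j hj => ?_⟩
    rw [Finset.mem_singleton] at hj
    subst hj
    exact (tot j (by simp) j (by simp)).elim id id
  | cons a s has hs ih =>
    obtain ⟨i, hi, hmin⟩ := ih (fun i hi j hj => tot i (by simp [hi]) j (by simp [hj]))
    rcases tot i (by simp [hi]) a (by simp) with h | h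
    · refine ⟨i, by simp [hi], fun j hj => ?_⟩
      rcases Finset.mem_cons.1 hj with rfl | hj
      · exact h
      · exact hmin j hj
    · refine ⟨a, by simp, fun j hj => ?_⟩
      rcases Finset.mem_cons.1 hj with rfl | hj
      · exact (tot j (by simp) j (by simp)).elim id id
      · exact tr _ _ _ h (hmin j hj)

variable (Γ lt) in
/-- the finite type of the invariant monotone relations -/
abbrev Rel : Type := {R : S → S → Prop // MInv Γ lt R}

lemma finite_rel (n : ℕ) (f : S → S → Fin n)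
    (hf : ∀ s t s' t', f s t = f s' t' → ∃ γ ∈ Γ, γ s = s' ∧ γ t = t') : Finite (Rel Γ lt) := by
  refine Finite.of_injective (β := Set (Fin n)) (fun R => {v | ∃ s t, f s t = v ∧ R.1 s t}) ?_
  intro R R' h
  have key : ∀ R R' : Rel Γ lt, {v | ∃ s t, f s t = v ∧ R.1 s t} = {v | ∃ s t, f s t = v ∧ R'.1 s t} →
      ∀ s t, R.1 s t → R'.1 s t := by
    intro R R' h s t hst
    have : f s t ∈ {v | ∃ s t, f s t = v ∧ R'.1 s t} := by
      rw [← h]; exact ⟨s, t, rfl, hst⟩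
    obtain ⟨s', t', h1, h2⟩ := this
    obtain ⟨γ, hγ, rfl, rfl⟩ := hf _ _ _ _ h1
    exact R'.2.1 γ hγ _ _ h2
  apply Subtype.ext
  funext s t
  exact propext ⟨key R R' h s t, key R' R h.symm s t⟩

/-- a family of up sets of a linear order has a smallest member -/
lemma up_min {O : Set S} (lin : ∀ s ∈ O, ∀ t ∈ O, lt s t ∨ s = t ∨ lt t s) {ι : Type*}
    (J : Finset ι) (hJ : J.Nonempty) (U : ι → S → Prop)
    (hU : ∀ j, ∀ w ∈ O, ∀ w' ∈ O, lt w w' → U j w → U j w') :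
    ∃ i ∈ J, ∀ j ∈ J, ∀ w ∈ O, U i w → U j w := by
  refine exists_min J hJ (fun i j => ∀ w ∈ O, U i w → U j w) ?_
    (fun i j k h1 h2 w hw h => h2 w hw (h1 w hw h))
  intro i _ j _
  by_contra hcon
  rw [not_or] at hcon
  obtain ⟨h1, h2⟩ := hcon
  push Not at h1 h2
  obtain ⟨w, hw, a1, a2⟩ := h1
  obtain ⟨w', hw', b1, b2⟩ := h2
  rcases lin w hw w' hw' with h | h | h
  · exact b2 (hU i w hw w' hw' h a1)
  · subst h; exact b2 a1
  · exact a2 (hU j w' hw' w hw h b1)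

open Classical in
lemma ext (fin : Finite (Rel Γ lt)) (lin : ∀ s t, E Γ s t → lt s t ∨ s = t ∨ lt t s)
    (p : Finset (S × S)) (hp : Gd Γ lt p) (z : S) : ∃ w, Gd Γ lt (insert (z, w) p) := by
  have := Fintype.ofFinite (Rel Γ lt)
  rcases p.eq_empty_or_nonempty with rfl | hne
  · refine ⟨z, ?_, ?_⟩
    · intro q hq
      simp only [insert_empty_eq, Finset.mem_singleton] at hq
      subst hq
      exact E_refl _
    · intro q hq r hr R _
      simp only [insert_empty_eq, Finset.mem_singleton] at hq hr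
      subst hq; subst hr
      exact Iff.rfl
  obtain ⟨q0, hq0⟩ := hne
  have linO : ∀ s ∈ {u | E Γ z u}, ∀ t ∈ {u | E Γ z u}, lt s t ∨ s = t ∨ lt t s :=
    fun s hs t ht => lin s t (E_trans (E_symm hs) ht)
  have linO' : ∀ s ∈ {u | E Γ z u}, ∀ t ∈ {u | E Γ z u}, lt t s ∨ s = t ∨ lt s t :=
    fun s hs t ht => by
      rcases linO s hs t ht with h | h | h
      · exact Or.inr (Or.inr h)
      · exact Or.inr (Or.inl h)
      · exact Or.inl h
  -- lower conditions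
  obtain ⟨⟨L, b⟩, hb, hL⟩ := up_min (lt := lt) linO
    ((Finset.univ ×ˢ p).filter fun j : Rel Γ lt × (S × S) => j.1.1 j.2.1 z)
    ⟨(⟨_, minv_true⟩, q0), by simp [hq0]⟩ (fun j w => j.1.1 j.2.2 w)
    (fun j w _ w' _ h hw => j.1.2.2 _ _ _ _ (Or.inl rfl) (Or.inr h) hw)
  obtain ⟨⟨U, b1⟩, hb1, hU⟩ := up_min (lt := fun s t => lt t s) linO'
    ((Finset.univ ×ˢ p).filter fun j : Rel Γ lt × (S × S) => j.1.1 z j.2.1)
    ⟨(⟨_, minv_true⟩, q0), by simp [hq0]⟩ (fun j w => j.1.1 w j.2.2)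
    (fun j w _ w' _ h hw => j.1.2.2 _ _ _ _ (Or.inr h) (Or.inl rfl) hw)
  simp only [Finset.mem_filter, Finset.mem_product, Finset.mem_univ, true_and, Prod.forall,
    Set.mem_ofPred_eq] at hb hb1 hL hU
  -- the relation `T`
  have hT : MInv Γ lt (fun s t => ∃ u, E Γ z u ∧ L.1 s u ∧ U.1 u t) := by
    refine ⟨?_, ?_⟩
    · rintro γ hγ s t ⟨u, hu, h1, h2⟩
      exact ⟨γ u, E_trans hu ⟨γ, hγ, rfl⟩, L.2.1 γ hγ _ _ h1, U.2.1 γ hγ _ _ h2⟩
    · rintro s s' t t' hs ht ⟨u, hu, h1, h2⟩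
      exact ⟨u, hu, L.2.2 _ _ _ _ hs (Or.inl rfl) h1, U.2.2 _ _ _ _ (Or.inl rfl) ht h2⟩
  obtain ⟨w, hw, h1, h2⟩ := (hp.2 b hb.1 b1 hb1.1 _ hT).1 ⟨z, E_refl z, hb.2, hb1.2⟩
  have low : ∀ R : S → S → Prop, MInv Γ lt R → ∀ q ∈ p, R q.1 z → R q.2 w := fun R hR q hq h =>
    hL ⟨R, hR⟩ q.1 q.2 ⟨hq, h⟩ w hw h1
  have upp : ∀ R : S → S → Prop, MInv Γ lt R → ∀ q ∈ p, R z q.1 → R w q.2 := fun R hR q hq h =>
    hU ⟨R, hR⟩ q.1 q.2 ⟨hq, h⟩ w hw h2
  refine ⟨w, ?_, ?_⟩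
  · intro q hq
    rcases Finset.mem_insert.1 hq with rfl | hq
    · exact hw
    · exact hp.1 q hq
  · intro q hq r hr R hR
    rcases Finset.mem_insert.1 hq with rfl | hq <;> rcases Finset.mem_insert.1 hr with rfl | hr
    · obtain ⟨γ, hγ, rfl⟩ := hw
      exact minv_iff hR hγ z z
    · refine ⟨upp R hR r hr, fun h => ?_⟩
      by_contra hcon
      exact low _ (minv_dual hR) r hr hcon h
    · refine ⟨low R hR q hq, fun h => ?_⟩
      by_contra hcon
      exact upp _ (minv_dual hR) q hq hcon h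
    · exact hp.2 q hq r hr R hR

open Classical in
lemma gd_swap {p : Finset (S × S)} (hp : Gd Γ lt p) : Gd Γ lt (p.image Prod.swap) := by
  refine ⟨?_, ?_⟩
  · intro q hq
    obtain ⟨r, hr, rfl⟩ := Finset.mem_image.1 hq
    exact E_symm (hp.1 r hr)
  · intro q hq r hr R hR
    obtain ⟨q', hq', rfl⟩ := Finset.mem_image.1 hq
    obtain ⟨r', hr', rfl⟩ := Finset.mem_image.1 hr
    exact (hp.2 q' hq' r' hr' R hR).symm

lemma exists_min' (J : Finset S) (hJ : J.Nonempty) (lin : ∀ s t, E Γ s t → lt s t ∨ s = t ∨ lt t s)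
    (hE : ∀ s ∈ J, ∀ t ∈ J, E Γ s t) (trans : ∀ s t u, lt s t → lt t u → lt s u) :
    ∃ m ∈ J, ∀ a ∈ J, m = a ∨ lt m a := by
  refine exists_min J hJ (fun a b => a = b ∨ lt a b) ?_ ?_
  · intro a ha b hb
    rcases lin a b (hE a ha b hb) with h | h | h
    · exact Or.inl (Or.inr h)
    · exact Or.inl (Or.inl h)
    · exact Or.inr (Or.inr h)
  · rintro a b c (rfl | h1) (rfl | h2)
    · exact Or.inl rfl
    · exact Or.inr h2
    · exact Or.inr h1
    · exact Or.inr (trans _ _ _ h1 h2)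

lemma exists_max' (J : Finset S) (hJ : J.Nonempty) (lin : ∀ s t, E Γ s t → lt s t ∨ s = t ∨ lt t s)
    (hE : ∀ s ∈ J, ∀ t ∈ J, E Γ s t) (trans : ∀ s t u, lt s t → lt t u → lt s u) :
    ∃ m ∈ J, ∀ a ∈ J, a = m ∨ lt a m := by
  refine exists_min J hJ (fun a b => b = a ∨ lt b a) ?_ ?_
  · intro a ha b hb
    rcases lin a b (hE a ha b hb) with h | h | h
    · exact Or.inr (Or.inr h)
    · exact Or.inl (Or.inl h.symm)
    · exact Or.inl (Or.inr h)
  · rintro a b c (rfl | h1) (rfl | h2)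
    · exact Or.inl rfl
    · exact Or.inr h2
    · exact Or.inr h1
    · exact Or.inr (trans _ _ _ h2 h1)

/-- boundary elements for one relation and one class -/
lemma bound (trans : ∀ s t u, lt s t → lt t u → lt s u) (lin : ∀ s t, E Γ s t → lt s t ∨ s = t ∨ lt t s)
    {R : S → S → Prop} (hR : MInv Γ lt R) (C : Finset S) (hC : ∀ s ∈ C, ∀ t ∈ C, E Γ s t) (x : S) :
    ∃ B : Finset S, B ⊆ C ∧ B.card ≤ 2 ∧ ∀ y, (∀ a ∈ B, (R x a ↔ R y a)) →
      ∀ a ∈ C, (R x a ↔ R y a) := by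
  classical
  have le_of : ∀ {a b : S}, (a = b ∨ lt a b) → ∀ y, R y a → R y b := fun h y hy =>
    hR.2 _ _ _ _ (Or.inl rfl) h hy
  -- minimal element of the positive part
  have h1 : ∃ B1 : Finset S, B1 ⊆ C ∧ B1.card ≤ 1 ∧ ∀ y, (∀ a ∈ B1, (R x a ↔ R y a)) →
      ∀ a ∈ C, R x a → R y a := by
    rcases (C.filter fun a => R x a).eq_empty_or_nonempty with h | h
    · refine ⟨∅, by simp, by simp, fun y _ a ha hxa => ?_⟩
      have : a ∈ C.filter fun a => R x a := Finset.mem_filter.2 ⟨ha, hxa⟩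
      rw [h] at this
      simp at this
    · obtain ⟨m, hm, hmin⟩ := exists_min' (C.filter fun a => R x a) h lin
        (fun s hs t ht => hC s (Finset.mem_filter.1 hs).1 t (Finset.mem_filter.1 ht).1) trans
      refine ⟨{m}, by simpa using (Finset.mem_filter.1 hm).1, by simp, fun y hy a ha hxa => ?_⟩
      have hym : R y m := (hy m (by simp)).1 (Finset.mem_filter.1 hm).2
      exact le_of (hmin a (Finset.mem_filter.2 ⟨ha, hxa⟩)) y hym
  have h2 : ∃ B2 : Finset S, B2 ⊆ C ∧ B2.card ≤ 1 ∧ ∀ y, (∀ a ∈ B2, (R x a ↔ R y a)) →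
      ∀ a ∈ C, ¬ R x a → ¬ R y a := by
    rcases (C.filter fun a => ¬ R x a).eq_empty_or_nonempty with h | h
    · refine ⟨∅, by simp, by simp, fun y _ a ha hxa => ?_⟩
      have : a ∈ C.filter fun a => ¬ R x a := Finset.mem_filter.2 ⟨ha, hxa⟩
      rw [h] at this
      simp at this
    · obtain ⟨m, hm, hmax⟩ := exists_max' (C.filter fun a => ¬ R x a) h lin
        (fun s hs t ht => hC s (Finset.mem_filter.1 hs).1 t (Finset.mem_filter.1 ht).1) trans
      refine ⟨{m}, by simpa using (Finset.mem_filter.1 hm).1, by simp, fun y hy a ha hxa hya => ?_⟩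
      exact (Finset.mem_filter.1 hm).2 ((hy m (by simp)).2
        (le_of (hmax a (Finset.mem_filter.2 ⟨ha, hxa⟩)) y hya))
  obtain ⟨B1, a1, a2, a3⟩ := h1
  obtain ⟨B2, b1, b2, b3⟩ := h2
  refine ⟨B1 ∪ B2, Finset.union_subset a1 b1, (Finset.card_union_le _ _).trans (by omega),
    fun y hy a ha => ⟨a3 y (fun a ha => hy a (Finset.mem_union_left _ ha)) a ha, fun h => ?_⟩⟩
  by_contra hcon
  exact b3 y (fun a ha => hy a (Finset.mem_union_right _ ha)) a ha hcon h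

theorem piece : S_BF → S_SK := by
  classical
  intro hBF S _ Γ lt hfo ltE ltinv irr trans tri
  obtain ⟨n, f, hf⟩ := hfo
  have lin : ∀ s t, E Γ s t → lt s t ∨ s = t ∨ lt t s := by
    rintro s t ⟨γ, hγ, rfl⟩
    exact tri s γ hγ
  have fin : Finite (Rel Γ lt) := finite_rel n f hf
  have := Fintype.ofFinite (Rel Γ lt)
  have hle : MInv Γ lt (fun s t => s = t ∨ lt s t) := by
    refine ⟨?_, ?_⟩
    · rintro γ hγ s t (rfl | h)
      · exact Or.inl rfl
      · exact Or.inr (ltinv γ hγ s t h)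
    · rintro s s' t t' hs ht h
      have tr : ∀ {a b c : S}, (a = b ∨ lt a b) → (b = c ∨ lt b c) → (a = c ∨ lt a c) := by
        rintro a b c (rfl | h1) (rfl | h2)
        · exact Or.inl rfl
        · exact Or.inr h2
        · exact Or.inr h1
        · exact Or.inr (trans _ _ _ h1 h2)
      exact tr hs (tr h ht)
  have anti : ∀ s t, (s = t ∨ lt s t) → (t = s ∨ lt t s) → s = t := by
    rintro s t (h | h) (h' | h')
    · exact h
    · exact h
    · exact h'.symm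
    · exact absurd (trans _ _ _ h h') (irr s)
  refine ⟨2 * (Fintype.card (Rel Γ lt) * n), fun A x => ?_⟩
  -- boundary elements
  let C : Fin n → Finset S := fun v => A.filter fun a => f a a = v
  have hC : ∀ v, ∀ s ∈ C v, ∀ t ∈ C v, E Γ s t := by
    intro v s hs t ht
    have e1 := (Finset.mem_filter.1 hs).2
    have e2 := (Finset.mem_filter.1 ht).2
    obtain ⟨γ, hγ, h1, _⟩ := hf s s t t (e1.trans e2.symm)
    exact ⟨γ, hγ, h1⟩
  choose B hB1 hB2 hB3 using fun j : Rel Γ lt × Fin n =>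
    bound trans lin j.1.2 (C j.2) (hC j.2) x
  refine ⟨Finset.univ.biUnion B, ?_, ?_, ?_⟩
  · intro a ha
    obtain ⟨j, _, hj⟩ := Finset.mem_biUnion.1 ha
    exact (Finset.mem_filter.1 (hB1 j hj)).1
  · refine (Finset.card_biUnion_le_card_mul _ _ 2 fun j _ => hB2 j).trans ?_
    rw [Finset.card_univ, Fintype.card_prod, Fintype.card_fin]
    exact (mul_comm _ _).le
  intro γ hγ hfix
  have key : ∀ R, MInv Γ lt R → ∀ a ∈ A, (R x a ↔ R (γ x) a) := by
    intro R hR a ha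
    refine hB3 (⟨R, hR⟩, f a a) (γ x) (fun b hb => ?_) a (Finset.mem_filter.2 ⟨ha, rfl⟩)
    have hb' : γ b = b := hfix b (Finset.mem_biUnion.2 ⟨_, Finset.mem_univ _, hb⟩)
    have := minv_iff hR hγ x b
    rw [hb'] at this
    exact this
  have key' : ∀ R, MInv Γ lt R → ∀ a ∈ A, (R a x ↔ R a (γ x)) := by
    intro R hR a ha
    have := key _ (minv_dual hR) a ha
    exact not_iff_not.1 this
  -- base
  let p0 : Finset (S × S) := insert (x, γ x) (A.image fun a => (a, a))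
  have hp0 : Gd Γ lt p0 := by
    refine ⟨?_, ?_⟩
    · intro q hq
      rcases Finset.mem_insert.1 hq with rfl | hq
      · exact ⟨γ, hγ, rfl⟩
      · obtain ⟨a, _, rfl⟩ := Finset.mem_image.1 hq
        exact E_refl a
    · intro q hq r hr R hR
      rcases Finset.mem_insert.1 hq with rfl | hq <;> rcases Finset.mem_insert.1 hr with rfl | hr
      · exact minv_iff hR hγ x x
      · obtain ⟨a, ha, rfl⟩ := Finset.mem_image.1 hr
        exact key R hR a ha
      · obtain ⟨a, ha, rfl⟩ := Finset.mem_image.1 hq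
        exact key' R hR a ha
      · obtain ⟨a, _, rfl⟩ := Finset.mem_image.1 hq
        obtain ⟨b, _, rfl⟩ := Finset.mem_image.1 hr
        exact Iff.rfl
  have g1 : ∀ p, Gd Γ lt p → ∀ q ∈ p, ∀ r ∈ p, (q.1 = r.1 ↔ q.2 = r.2) := by
    intro p hp q hq r hr
    have h1 := hp.2 q hq r hr _ hle
    have h2 := hp.2 r hr q hq _ hle
    constructor
    · intro h
      exact anti _ _ (h1.1 (Or.inl h)) (h2.1 (Or.inl h.symm))
    · intro h
      exact anti _ _ (h1.2 (Or.inl h)) (h2.2 (Or.inl h.symm))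
  have g2 : ∀ p, Gd Γ lt p → ∀ a, ∃ b p', Gd Γ lt p' ∧ p ⊆ p' ∧ (a, b) ∈ p' := by
    intro p hp a
    obtain ⟨w, hw⟩ := ext fin lin p hp a
    exact ⟨w, _, hw, Finset.subset_insert _ _, Finset.mem_insert_self _ _⟩
  have g3 : ∀ p, Gd Γ lt p → ∀ b, ∃ a p', Gd Γ lt p' ∧ p ⊆ p' ∧ (a, b) ∈ p' := by
    intro p hp b
    obtain ⟨w, hw⟩ := ext fin lin _ (gd_swap hp) b
    refine ⟨w, _, gd_swap hw, ?_, ?_⟩
    · intro q hq
      refine Finset.mem_image.2 ⟨q.swap, Finset.mem_insert_of_mem (Finset.mem_image_of_mem _ hq), ?_⟩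
      exact Prod.swap_swap q
    · exact Finset.mem_image.2 ⟨(b, w), Finset.mem_insert_self _ _, rfl⟩
  obtain ⟨e, he1, he2⟩ := hBF S S (Gd Γ lt) g1 g2 g3 p0 hp0
  refine ⟨e, ?_, ?_, ?_, ?_⟩
  · intro s
    obtain ⟨p, hp, hs⟩ := he2 {s}
    obtain ⟨γ', h1, h2⟩ := hp.1 _ (hs s (by simp))
    exact ⟨γ', h1, h2.symm⟩
  · intro R hR s t
    obtain ⟨p, hp, hs⟩ := he2 {s, t}
    exact hp.2 _ (hs s (by simp)) _ (hs t (by simp)) R hR
  · intro a ha
    exact he1 (a, a) (Finset.mem_insert_of_mem (Finset.mem_image.2 ⟨a, ha, rfl⟩))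
  · exact he1 (x, γ x) (Finset.mem_insert_self _ _)

end

end Run7.h901.PO.SK
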